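import Pool.Agent.H18.XZ.TA

/-!
# Row ABS: the inequality for all rows from the inequality on a cube
-/

set_option autoImplicit false

namespace Pool.Agent.H58.XZ

open Finset Pool.Agent.H70.OQ Pool.Agent.H18.XZ
open Pool.Agent.H66.AV (sg)

section

variable {ι J P : Type} [DecidableEq ι] [DecidableEq J]

theorem ic1 {p : Prop} (h : p) : ic p = 1 := by unfold ic; rw [if_pos h]

theorem ic0 {p : Prop} (h : ¬ p) : ic p = 0 := by unfold ic; rw [if_neg h]

theorem ic_nn (p : Prop) : 0 ≤ ic p := by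
  by_cases h : p
  · rw [ic1 h]; norm_num
  · rw [ic0 h]

theorem cf_rpl (s : ι → J) (ω : ι × J → Bool × P) (η : ι → Bool × P) :
    cf (rpl s ω η) = rpl s (cf ω) (cf η) := by
  funext r
  by_cases h : r.2 = s r.1 <;> simp [cf, rpl, h]

theorem rpl_at (s : ι → J) {V : Type} (ω : ι × J → V) (η : ι → V) (t : ι) :
    rpl s ω η (t, s t) = η t := by simp [rpl]

theorem rem_rpl (s : ι → J) (t : ι) (c0 : ι × J → Option P) (c : ι → Option P) :
    rem (t, s t) (rpl s c0 c) = rpl s c0 (rem t c) := by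
  funext r
  obtain ⟨i, j⟩ := r
  by_cases h : (i, j) = (t, s t)
  · rw [h, rpl_at]
    simp [rem]
  · have hL : rem (t, s t) (rpl s c0 c) (i, j) = rpl s c0 c (i, j) := by
      unfold rem
      rw [Function.update_of_ne h]
    rw [hL]
    by_cases hj : j = s i
    · have hi : i ≠ t := by
        intro hit
        exact h (by rw [hj, hit])
      simp [rpl, hj, rem, hi]
    · simp [rpl, hj]

theorem okc_rpl (L : ι × J → Finset P) (s : ι → J) (c0 : ι × J → Option P) (c : ι → Option P)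
    (h0 : Okc L c0) (h : Okc (fun t => L (t, s t)) c) : Okc L (rpl s c0 c) := by
  intro r u hu
  obtain ⟨i, j⟩ := r
  by_cases hj : j = s i
  · have h1 : rpl s c0 c (i, j) = c i := by simp [rpl, hj]
    rw [h1] at hu
    rw [hj]
    exact h i u hu
  · have h1 : rpl s c0 c (i, j) = c0 (i, j) := by simp [rpl, hj]
    rw [h1] at hu
    exact h0 _ u hu

variable [Fintype ι] [Fintype J]

theorem cm_rpl (s : ι → J) (a : ι × J → P → ℝ) (c0 : ι × J → Option P) (c c' : ι → Option P) :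
    cm a (rpl s c0 c) (rpl s c0 c') = cm (fun t u => a (t, s t) u) c c' := by
  unfold cm
  rw [Fintype.sum_prod_type]
  refine Finset.sum_congr rfl fun t _ => ?_
  rw [Finset.sum_eq_single (s t)]
  · rw [rpl_at, rpl_at]
  · intro j _ hj
    simp [rpl, hj]
  · simp

/-- The first sum over the rows `(t, s t)`. -/
noncomputable def E0 (v : ι × J → (ι × J → Option P) → ℝ) (s : ι → J) (ω : ι × J → Bool × P) : ℝ :=
  ∑ t, sg (ω (t, s t)).1 * (v (t, s t) (rem (t, s t) (cf ω)) - 1 / 2)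

/-- The second sum over the rows `(t, s t)`. -/
noncomputable def E1 (v : ι × J → (ι × J → Option P) → ℝ) (s : ι → J) (ω : ι × J → Bool × P) : ℝ :=
  ∑ t, if (ω (t, s t)).1 then
    max (v (t, s t) (rem (t, s t) (cf ω)) - v (t, s t) (cf ω)) 0 else 0

theorem e0_rpl (v : ι × J → (ι × J → Option P) → ℝ) (s : ι → J) (ω : ι × J → Bool × P)
    (η : ι → Bool × P) :
    e0 (fun t c => v (t, s t) (rpl s (cf ω) c)) η = E0 v s (rpl s ω η) := by
  unfold e0 E0
  refine Finset.sum_congr rfl fun t _ => ?_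
  rw [cf_rpl, rem_rpl, rpl_at]

theorem e1_rpl (v : ι × J → (ι × J → Option P) → ℝ) (s : ι → J) (ω : ι × J → Bool × P)
    (η : ι → Bool × P) :
    e1 (fun t c => v (t, s t) (rpl s (cf ω) c)) η = E1 v s (rpl s ω η) := by
  unfold e1 E1
  refine Finset.sum_congr rfl fun t _ => ?_
  rw [cf_rpl, rem_rpl, rpl_at]

/-- The masses on the rows `(t, s t)` are small. -/
def Li [Fintype P] (A : ι × J → (ι × J → Option P) → ι × J → P → ℝ) (ε : ℝ) (s : ι → J)
    (ω : ι × J → Bool × P) : Prop :=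
  ∀ t, ∑ t' ∈ univ.erase t, ∑ u, A (t, s t) (rem (t, s t) (cf ω)) (t', s t') u ≤ ε / 4

/-- One of the sums over the rows `(t, s t)` is large. -/
def La (v : ι × J → (ι × J → Option P) → ℝ) (ε : ℝ) (s : ι → J) (ω : ι × J → Bool × P) : Prop :=
  ε / 2 * Fintype.card ι ≤ |E0 v s ω| ∨ ε / 2 * Fintype.card ι ≤ E1 v s ω

theorem sg_abs (b : Bool) : |sg b| = 1 := by cases b <;> simp [sg]

theorem E0_le (v : ι × J → (ι × J → Option P) → ℝ) (hv : ∀ r c, 0 ≤ v r c ∧ v r c ≤ 1)
    (s : ι → J) (ω : ι × J → Bool × P) : |E0 v s ω| ≤ Fintype.card ι := by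
  unfold E0
  refine (Finset.abs_sum_le_sum_abs _ _).trans ?_
  have : ∀ t ∈ (univ : Finset ι), |sg (ω (t, s t)).1 *
      (v (t, s t) (rem (t, s t) (cf ω)) - 1 / 2)| ≤ 1 := by
    intro t _
    rw [abs_mul, sg_abs, one_mul, abs_le]
    have := hv (t, s t) (rem (t, s t) (cf ω))
    constructor <;> linarith [this.1, this.2]
  refine (Finset.sum_le_sum this).trans ?_
  simp

theorem E1_le (v : ι × J → (ι × J → Option P) → ℝ) (hv : ∀ r c, 0 ≤ v r c ∧ v r c ≤ 1)
    (s : ι → J) (ω : ι × J → Bool × P) : E1 v s ω ≤ Fintype.card ι := by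
  unfold E1
  have : ∀ t ∈ (univ : Finset ι), (if (ω (t, s t)).1 then
      max (v (t, s t) (rem (t, s t) (cf ω)) - v (t, s t) (cf ω)) 0 else 0) ≤ 1 := by
    intro t _
    split_ifs
    · have h1 := hv (t, s t) (rem (t, s t) (cf ω))
      have h2 := hv (t, s t) (cf ω)
      refine max_le ?_ (by norm_num)
      linarith [h1.2, h2.1]
    · norm_num
  refine (Finset.sum_le_sum this).trans ?_
  simp

/-- A mean of numbers `≤ N` which is at least `ε N`: many of them are `≥ ε N / 2`. -/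
theorem many {S : Type} [Fintype S] (X : S → ℝ) (p : S → Prop) (N ε : ℝ) (hN : 0 < N)
    (h1 : ∀ s, X s ≤ N) (h2 : ∀ s, ¬ p s → X s ≤ ε / 2 * N) (hε : 0 ≤ ε)
    (h3 : ε * N * Fintype.card S ≤ ∑ s, X s) :
    ε / 2 * Fintype.card S ≤ ∑ s, ic (p s) := by
  have h4 : ∀ s ∈ (univ : Finset S), X s ≤ N * ic (p s) + ε / 2 * N := by
    intro s _
    by_cases hp : p s
    · rw [ic1 hp]
      have := h1 s
      have h5 : 0 ≤ ε / 2 * N := by positivity
      linarith
    · rw [ic0 hp]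
      have := h2 s hp
      linarith
  have h5 := h3.trans (Finset.sum_le_sum h4)
  rw [Finset.sum_add_distrib, ← Finset.mul_sum, Finset.sum_const, Finset.card_univ,
    nsmul_eq_mul] at h5
  have h6 : N * (ε / 2 * Fintype.card S) ≤ N * ∑ s, ic (p s) := by nlinarith
  exact le_of_mul_le_mul_left h6 hN

end

section

variable {ι J P : Type} [Fintype ι] [DecidableEq ι] [Fintype J] [DecidableEq J]
  [Fintype P] [DecidableEq P]

/-- For a bad `ω` many sets of rows are light and bad. -/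
theorem stepB [Nonempty ι] [Nonempty J] (hSMP : T_SMP) (W ε : ℝ)
    (v : ι × J → (ι × J → Option P) → ℝ) (hε : 0 < ε) (hW : 0 ≤ W)
    (hWJ : 16 * Fintype.card ι * W ≤ ε ^ 2 * Fintype.card J)
    (hv : ∀ r c, 0 ≤ v r c ∧ v r c ≤ 1)
    (A : ι × J → (ι × J → Option P) → ι × J → P → ℝ) (hA0 : ∀ r c r' u, 0 ≤ A r c r' u)
    (hAW : ∀ r c, ∑ r', ∑ u, A r c r' u ≤ W) (ω : ι × J → Bool × P)
    (hb : ε * Fintype.card (ι × J) ≤ |e0 v ω| ∨ ε * Fintype.card (ι × J) ≤ e1 v ω) :
    ε / 4 * Fintype.card (ι → J) ≤ ∑ s : ι → J, ic (Li A ε s ω ∧ La v ε s ω) := by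
  obtain ⟨hS1, hS2⟩ := hSMP ι J
  have hN : (0 : ℝ) < Fintype.card ι := by exact_mod_cast Fintype.card_pos
  have hq : (0 : ℝ) < Fintype.card J := by exact_mod_cast Fintype.card_pos
  set N : ℝ := ((Fintype.card ι : ℕ) : ℝ) with hNd
  set q : ℝ := ((Fintype.card J : ℕ) : ℝ) with hqd
  have hK : ((Fintype.card (ι → J) : ℕ) : ℝ) = q ^ Fintype.card ι := by
    rw [Fintype.card_fun, Nat.cast_pow]
  have hR : ((Fintype.card (ι × J) : ℕ) : ℝ) = N * q := by
    rw [Fintype.card_prod, Nat.cast_mul]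
  have hKp : 0 < q ^ Fintype.card ι := by positivity
  -- the large ones
  have hlarge : ε / 2 * Fintype.card (ι → J) ≤ ∑ s : ι → J, ic (La v ε s ω) := by
    rw [hR] at hb
    rcases hb with hb | hb
    · refine many (fun s => |E0 v s ω|) _ N ε hN (fun s => E0_le v hv s ω) ?_ hε.le ?_
      · intro s hs
        have : ¬ ε / 2 * N ≤ |E0 v s ω| := fun h => hs (Or.inl h)
        exact (not_le.mp this).le
      · have h1 := hS1 (fun t j => sg (ω (t, j)).1 * (v (t, j) (rem (t, j) (cf ω)) - 1 / 2))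
        have h2 : ∑ t, ∑ j, sg (ω (t, j)).1 * (v (t, j) (rem (t, j) (cf ω)) - 1 / 2) =
            e0 v ω := by
          unfold e0
          rw [Fintype.sum_prod_type]
        rw [h2] at h1
        have h3 : q * |∑ s : ι → J, E0 v s ω| = q ^ Fintype.card ι * |e0 v ω| := by
          have e1' : q * |∑ s : ι → J, E0 v s ω| = |q * ∑ s : ι → J, E0 v s ω| := by
            rw [abs_mul, abs_of_pos hq]
          have e2' : q ^ Fintype.card ι * |e0 v ω| = |q ^ Fintype.card ι * e0 v ω| := by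
            rw [abs_mul, abs_of_pos hKp]
          rw [e1', e2', ← h1]
          rfl
        have h4 : |∑ s : ι → J, E0 v s ω| ≤ ∑ s : ι → J, |E0 v s ω| :=
          Finset.abs_sum_le_sum_abs _ _
        have h5 : q * (ε * N * Fintype.card (ι → J)) ≤ q * ∑ s : ι → J, |E0 v s ω| := by
          rw [hK]
          calc q * (ε * N * q ^ Fintype.card ι) = q ^ Fintype.card ι * (ε * (N * q)) := by ring
            _ ≤ q ^ Fintype.card ι * |e0 v ω| := by
              exact mul_le_mul_of_nonneg_left hb hKp.le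
            _ = q * |∑ s : ι → J, E0 v s ω| := h3.symm
            _ ≤ _ := mul_le_mul_of_nonneg_left h4 hq.le
        exact le_of_mul_le_mul_left h5 hq
    · refine many (fun s => E1 v s ω) _ N ε hN (fun s => E1_le v hv s ω) ?_ hε.le ?_
      · intro s hs
        have : ¬ ε / 2 * N ≤ E1 v s ω := fun h => hs (Or.inr h)
        exact (not_le.mp this).le
      · have h1 := hS1 (fun t j => if (ω (t, j)).1 then
          max (v (t, j) (rem (t, j) (cf ω)) - v (t, j) (cf ω)) 0 else 0)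
        have h2 : (∑ t, ∑ j, if (ω (t, j)).1 then
            max (v (t, j) (rem (t, j) (cf ω)) - v (t, j) (cf ω)) 0 else 0) = e1 v ω := by
          unfold e1
          rw [Fintype.sum_prod_type]
        rw [h2] at h1
        have h5 : q * (ε * N * Fintype.card (ι → J)) ≤ q * ∑ s : ι → J, E1 v s ω := by
          rw [hK]
          calc q * (ε * N * q ^ Fintype.card ι) = q ^ Fintype.card ι * (ε * (N * q)) := by ring
            _ ≤ q ^ Fintype.card ι * e1 v ω := by
              exact mul_le_mul_of_nonneg_left hb hKp.le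
            _ = _ := h1.symm
        exact le_of_mul_le_mul_left h5 hq
  -- the heavy ones
  have hheavy : ∑ s : ι → J, ic (¬ Li A ε s ω) ≤ ε / 4 * Fintype.card (ι → J) := by
    have h1 := hS2 (fun t j t' j' => ∑ u, A (t, j) (rem (t, j) (cf ω)) (t', j') u)
    have h2 : ∑ t, ∑ t' ∈ univ.erase t, ∑ j, ∑ j', ∑ u,
        A (t, j) (rem (t, j) (cf ω)) (t', j') u ≤ N * q * W := by
      have h3 : ∀ t ∈ (univ : Finset ι), ∑ t' ∈ univ.erase t, ∑ j, ∑ j', ∑ u,
          A (t, j) (rem (t, j) (cf ω)) (t', j') u ≤ q * W := by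
        intro t _
        rw [Finset.sum_comm]
        have h4 : ∀ j ∈ (univ : Finset J), ∑ t' ∈ univ.erase t, ∑ j', ∑ u,
            A (t, j) (rem (t, j) (cf ω)) (t', j') u ≤ W := by
          intro j _
          refine le_trans ?_ (hAW (t, j) (rem (t, j) (cf ω)))
          rw [Fintype.sum_prod_type]
          refine Finset.sum_le_sum_of_subset_of_nonneg (Finset.erase_subset _ _) ?_
          intro t' _ _
          exact Finset.sum_nonneg fun j' _ => Finset.sum_nonneg fun u _ => hA0 _ _ _ _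
        refine (Finset.sum_le_sum h4).trans ?_
        rw [Finset.sum_const, Finset.card_univ, nsmul_eq_mul]
      refine (Finset.sum_le_sum h3).trans ?_
      rw [Finset.sum_const, Finset.card_univ, nsmul_eq_mul]
      rw [mul_assoc]
    have h3 : ∀ s ∈ (univ : Finset (ι → J)), ε / 4 * ic (¬ Li A ε s ω) ≤
        ∑ t, ∑ t' ∈ univ.erase t, ∑ u, A (t, s t) (rem (t, s t) (cf ω)) (t', s t') u := by
      intro s _
      have hnn : ∀ t, 0 ≤ ∑ t' ∈ univ.erase t, ∑ u,
          A (t, s t) (rem (t, s t) (cf ω)) (t', s t') u := fun t =>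
        Finset.sum_nonneg fun t' _ => Finset.sum_nonneg fun u _ => hA0 _ _ _ _
      by_cases hl : Li A ε s ω
      · rw [ic0 (not_not.mpr hl), mul_zero]
        exact Finset.sum_nonneg fun t _ => hnn t
      · rw [ic1 hl, mul_one]
        unfold Li at hl
        push Not at hl
        obtain ⟨t, ht⟩ := hl
        refine ht.le.trans ?_
        exact Finset.single_le_sum (f := fun t => ∑ t' ∈ univ.erase t, ∑ u,
          A (t, s t) (rem (t, s t) (cf ω)) (t', s t') u) (fun t _ => hnn t) (Finset.mem_univ t)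
    have h4 := Finset.sum_le_sum h3
    rw [← Finset.mul_sum] at h4
    have h5 : q ^ 2 * (ε / 4 * ∑ s : ι → J, ic (¬ Li A ε s ω)) ≤
        q ^ Fintype.card ι * (N * q * W) := by
      calc q ^ 2 * (ε / 4 * ∑ s : ι → J, ic (¬ Li A ε s ω)) ≤ q ^ 2 * _ :=
            mul_le_mul_of_nonneg_left h4 (by positivity)
        _ = _ := h1
        _ ≤ _ := mul_le_mul_of_nonneg_left h2 hKp.le
    rw [hK]
    have h6 : 4 * (N * W) ≤ ε ^ 2 / 4 * q := by nlinarith
    have h7 : (q ^ 2 * ε) * ∑ s : ι → J, ic (¬ Li A ε s ω) ≤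
        (q ^ 2 * ε) * (ε / 4 * q ^ Fintype.card ι) := by
      calc (q ^ 2 * ε) * ∑ s : ι → J, ic (¬ Li A ε s ω) =
            4 * (q ^ 2 * (ε / 4 * ∑ s : ι → J, ic (¬ Li A ε s ω))) := by ring
        _ ≤ 4 * (q ^ Fintype.card ι * (N * q * W)) := by linarith
        _ = (q ^ Fintype.card ι * q) * (4 * (N * W)) := by ring
        _ ≤ (q ^ Fintype.card ι * q) * (ε ^ 2 / 4 * q) :=
            mul_le_mul_of_nonneg_left h6 (by positivity)
        _ = _ := by ring
    exact le_of_mul_le_mul_left h7 (by positivity)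
  have hcomb : ∀ s ∈ (univ : Finset (ι → J)), ic (La v ε s ω) - ic (¬ Li A ε s ω) ≤
      ic (Li A ε s ω ∧ La v ε s ω) := by
    intro s _
    by_cases hl : Li A ε s ω
    · rw [ic0 (not_not.mpr hl), sub_zero]
      by_cases hb' : La v ε s ω
      · rw [ic1 hb', ic1 (p := Li A ε s ω ∧ La v ε s ω) ⟨hl, hb'⟩]
      · rw [ic0 hb']
        exact ic_nn _
    · rw [ic1 hl]
      have h1 : ic (La v ε s ω) ≤ 1 := by
        by_cases hb' : La v ε s ω
        · rw [ic1 hb']
        · rw [ic0 hb']; norm_num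
      have h2 := ic_nn (Li A ε s ω ∧ La v ε s ω)
      linarith
  have := Finset.sum_le_sum hcomb
  rw [Finset.sum_sub_distrib] at this
  linarith

/-- For each set of rows. -/
theorem stepA (hCUB : Pool.Agent.H18.XZ.T_CUB) (hRPL : T_RPL) (hWTS : T_WTS) (L : ι × J → Finset P) (M : ℕ)
    (W ε : ℝ) (v : ι × J → (ι × J → Option P) → ℝ) (hM : ∀ r, M ≤ (L r).card) (h1 : 1 ≤ M)
    (hε : 0 < ε) (hε1 : ε ≤ 1) (hWM : 16 * W ≤ ε * M)
    (hv : ∀ r c, 0 ≤ v r c ∧ v r c ≤ 1)
    (A : ι × J → (ι × J → Option P) → ι × J → P → ℝ) (hA0 : ∀ r c r' u, 0 ≤ A r c r' u)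
    (hAW : ∀ r c, ∑ r', ∑ u, A r c r' u ≤ W)
    (hAv : ∀ r c, Okc L c → ∀ c', Okc L c' → v r c - v r c' ≤ cm (A r c) c c')
    (s : ι → J) :
    ∑ ω : ι × J → Bool × P, wt L ω * ic (Li A ε s ω ∧ La v ε s ω) ≤
      3 * Real.exp (-(ε ^ 2 * Fintype.card ι / 8)) := by
  have hne : ∀ r, (L r).Nonempty := fun r => Finset.card_pos.mp (by have := hM r; omega)
  obtain ⟨hw1, hw0, hwL, -⟩ := hWTS (ι × J) P L hne
  have hr := hRPL ι J (Bool × P)
    (fun r x => if x.2 ∈ L r then 1 / (2 * ((L r).card : ℝ)) else 0)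
    (fun ω => ic (Li A ε s ω ∧ La v ε s ω)) s (by
      intro r
      rw [Fintype.sum_prod_type]
      simp only [Finset.sum_ite_mem, Finset.univ_inter, Finset.sum_const, nsmul_eq_mul,
        Fintype.sum_bool]
      have : (0 : ℝ) < (L r).card := by exact_mod_cast Finset.card_pos.mpr (hne r)
      field_simp
      norm_num)
  have hr' : ∑ ω : ι × J → Bool × P, wt L ω * ic (Li A ε s ω ∧ La v ε s ω) =
      ∑ ω : ι × J → Bool × P, wt L ω * ∑ η : ι → Bool × P, wt (fun t => L (t, s t)) η *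
        ic (Li A ε s (rpl s ω η) ∧ La v ε s (rpl s ω η)) := hr
  rw [hr']
  have hin : ∀ ω ∈ (univ : Finset (ι × J → Bool × P)),
      wt L ω * ∑ η : ι → Bool × P, wt (fun t => L (t, s t)) η *
        ic (Li A ε s (rpl s ω η) ∧ La v ε s (rpl s ω η)) ≤
      wt L ω * (3 * Real.exp (-(ε ^ 2 * Fintype.card ι / 8))) := by
    intro ω _
    by_cases h0 : wt L ω = 0
    · rw [h0, zero_mul, zero_mul]
    refine mul_le_mul_of_nonneg_left ?_ (hw0 ω)
    have hok : Okc L (cf ω) := by
      intro r u hu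
      have := hwL ω h0 r
      unfold cf at hu
      split_ifs at hu
      · simp only [Option.some.injEq] at hu
        rwa [← hu]
    have hc := hCUB ι P (fun t => L (t, s t)) M W ε
      (fun t c => v (t, s t) (rpl s (cf ω) c))
      (fun t c t' u => A (t, s t) (rpl s (cf ω) c) (t', s t') u)
      (fun t => hM _) h1 hε hε1 hWM (fun t c => hv _ _) (fun t c t' u => hA0 _ _ _ _)
      (by
        intro t c
        refine le_trans ?_ (hAW (t, s t) (rpl s (cf ω) c))
        exact Finset.single_le_sum (f := fun r' => ∑ u, A (t, s t) (rpl s (cf ω) c) r' u)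
          (fun r' _ => Finset.sum_nonneg fun u _ => hA0 _ _ _ _) (Finset.mem_univ (t, s t)))
      (by
        intro t c c' hc hc'
        have := hAv (t, s t) _ (okc_rpl L s (cf ω) c hok hc) _ (okc_rpl L s (cf ω) c' hok hc')
        rw [cm_rpl] at this
        exact this)
    refine le_trans (le_of_eq ?_) hc
    refine Finset.sum_congr rfl fun η _ => ?_
    congr 2
    unfold Li La
    rw [e0_rpl, e1_rpl, cf_rpl]
    simp only [rem_rpl]
  refine (Finset.sum_le_sum hin).trans ?_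
  rw [← Finset.sum_mul, hw1, one_mul]

end

theorem pf_ABS (hCUB : Pool.Agent.H18.XZ.T_CUB) (hSMP : T_SMP) (hRPL : T_RPL) (hWTS : T_WTS) : T_ABS := by
  intro ι J P _ _ _ _ _ _ _ _ L M W ε v hM h1 hε hε1 hW hWM hWJ hv hg
  have hA : ∀ r c, ∃ a : ι × J → P → ℝ, (∀ r' u, 0 ≤ a r' u) ∧ ∑ r', ∑ u, a r' u ≤ W ∧
      (Okc L c → ∀ c', Okc L c' → v r c - v r c' ≤ cm a c c') := by
    intro r c
    by_cases h : Okc L c
    · obtain ⟨a, h1, h2, h3⟩ := hg r c h
      exact ⟨a, h1, h2, fun _ => h3⟩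
    · exact ⟨fun _ _ => 0, fun _ _ => le_rfl, by simpa using hW, fun h' => absurd h' h⟩
  choose A hA0 hAW hAv using hA
  have hne : ∀ r, (L r).Nonempty := fun r => Finset.card_pos.mp (by have := hM r; omega)
  obtain ⟨-, hw0, -, -⟩ := hWTS (ι × J) P L hne
  have hKp : (0 : ℝ) < Fintype.card (ι → J) := by exact_mod_cast Fintype.card_pos
  have hpt : ∀ ω ∈ (univ : Finset (ι × J → Bool × P)),
      wt L ω * ic (ε * Fintype.card (ι × J) ≤ |e0 v ω| ∨ ε * Fintype.card (ι × J) ≤ e1 v ω) ≤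
      4 / (ε * Fintype.card (ι → J)) * ∑ s : ι → J, wt L ω * ic (Li A ε s ω ∧ La v ε s ω) := by
    intro ω _
    rw [← Finset.mul_sum]
    by_cases hb : ε * Fintype.card (ι × J) ≤ |e0 v ω| ∨ ε * Fintype.card (ι × J) ≤ e1 v ω
    · have h2 := stepB hSMP W ε v hε hW hWJ hv A hA0 hAW ω hb
      rw [ic1 hb, mul_one]
      have h3 : 1 ≤ 4 / (ε * Fintype.card (ι → J)) *
          ∑ s : ι → J, ic (Li A ε s ω ∧ La v ε s ω) := by
        rw [div_mul_eq_mul_div, le_div_iff₀ (by positivity)]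
        linarith
      calc wt L ω = wt L ω * 1 := (mul_one _).symm
        _ ≤ wt L ω * _ := mul_le_mul_of_nonneg_left h3 (hw0 ω)
        _ = _ := by ring
    · rw [ic0 hb, mul_zero]
      have h3 : 0 ≤ ∑ s : ι → J, ic (Li A ε s ω ∧ La v ε s ω) :=
        Finset.sum_nonneg fun s _ => ic_nn _
      have := hw0 ω
      positivity
  refine (Finset.sum_le_sum hpt).trans ?_
  rw [← Finset.mul_sum, Finset.sum_comm]
  have hs : ∀ s ∈ (univ : Finset (ι → J)),
      ∑ ω : ι × J → Bool × P, wt L ω * ic (Li A ε s ω ∧ La v ε s ω) ≤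
        3 * Real.exp (-(ε ^ 2 * Fintype.card ι / 8)) := fun s _ =>
    stepA hCUB hRPL hWTS L M W ε v hM h1 hε hε1 hWM hv A hA0 hAW hAv s
  have h2 := Finset.sum_le_sum hs
  rw [Finset.sum_const, Finset.card_univ, nsmul_eq_mul] at h2
  calc 4 / (ε * Fintype.card (ι → J)) * _ ≤ 4 / (ε * Fintype.card (ι → J)) *
        (Fintype.card (ι → J) * (3 * Real.exp (-(ε ^ 2 * Fintype.card ι / 8)))) :=
        mul_le_mul_of_nonneg_left h2 (by positivity)
    _ = 12 / ε * Real.exp (-(ε ^ 2 * Fintype.card ι / 8)) := by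
      field_simp
      norm_num

end Pool.Agent.H58.XZ
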