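import Pool.Agent.H17.XX.COS
import Pool.Agent.H18.XZ.TD

/-!
# Row CNM: the distributions which depend on all coordinates are replaced, multiplicative errors

Adapted from `Pool/Agent/H17/XX/CNS.lean` (helper17).
-/

set_option autoImplicit false
set_option linter.unusedSectionVars false

namespace Pool.Agent.H58.XZ.CN

open Finset Function Pool.Agent.H17.EX Pool.Agent.H17.XX

section

variable {I : Type} [Fintype I] [DecidableEq I] {T : I → Type} [∀ j, Fintype (T j)]
  [∀ j, DecidableEq (T j)]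

/-- one step, with a multiplicative error -/
theorem stepM (m : Bool → ∀ j, T j → ℝ) (m0 : ∀ j, T j → ℝ) (f : (∀ j, T j) → I → Bool)
    (hm : ∀ b j p, 0 ≤ m b j p) (hm1 : ∀ b j, ∑ p, m b j p ≤ 1) (hm0 : ∀ j p, 0 ≤ m0 j p)
    (h01 : ∀ j, ∑ p, m0 j p = 1) (D S : Finset I) (hS : D ⊆ S) (j : I) (hj : j ∈ D) (F : (∀ j, T j) → ℝ)
    (e t : ℝ) (ht : 0 ≤ t)
    (H : ∀ (κ : I → Bool) (P : ∀ j, T j),
      |∑ p, m (κ j) j p * (F (update P j p) * evC f S κ (update P j p)) -
        ∑ p, m0 j p * (F (update P j p) * evC f S κ (update P j p))| ≤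
        e * ∑ p, m0 j p * (F (update P j p) * evC f S κ (update P j p)) + t) :
    ∑ P, wC m m0 f D P * F P ≤
      (1 + e) * ∑ P, wC m m0 f (D.erase j) P * F P + 2 ^ S.card * t := by
  rw [wC_sum m m0 f S D hS F, wC_sum m m0 f S (D.erase j) ((erase_subset j D).trans hS) F]
  -- one set of answers
  have key : ∀ A ∈ S.powerset,
      ∑ P, (∏ i, wA m m0 D A i (P i)) * (F P * evC f S (kA A) P) ≤
      (1 + e) * ∑ P, (∏ i, wA m m0 (D.erase j) A i (P i)) * (F P * evC f S (kA A) P) + t := by
    intro A _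
    -- both sums after resampling
    have e1 : ∀ (μ : T j → ℝ) (G : (∀ i, T i) → ℝ),
        ∑ P : ∀ i, T i, (μ (P j) * ∏ i ∈ univ.erase j, wA m m0 D A i (P i)) * G P =
        ∑ P : ∀ i, T i, (∏ i, wA m m0 (D.erase j) A i (P i)) * ∑ p, μ p * G (update P j p) := by
      intro μ G
      rw [resampleD j (m0 j) (h01 j)]
      refine sum_congr rfl fun P _ => ?_
      rw [wA_split', mul_assoc]
      congr 1
      rw [mul_sum]
      refine sum_congr rfl fun p _ => ?_
      rw [rest_update, update_self]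
      ring
    have e2 : ∑ P, (∏ i, wA m m0 D A i (P i)) * (F P * evC f S (kA A) P) =
        ∑ P : ∀ i, T i, (∏ i, wA m m0 (D.erase j) A i (P i)) *
          ∑ p, m (kA A j) j p * (F (update P j p) * evC f S (kA A) (update P j p)) := by
      rw [← e1 (m (kA A j) j) fun P => F P * evC f S (kA A) P]
      exact sum_congr rfl fun P _ => by rw [wA_split m m0 D A j hj P]
    have e3 : ∀ G : (∀ i, T i) → ℝ, ∑ P, (∏ i, wA m m0 (D.erase j) A i (P i)) * G P =
        ∑ P : ∀ i, T i, (∏ i, wA m m0 (D.erase j) A i (P i)) *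
          ∑ p, m0 j p * G (update P j p) := by
      intro G
      rw [← e1 (m0 j) G]
      exact sum_congr rfl fun P _ => by rw [wA_split' m m0 D A j P]
    have hnn : ∀ P : ∀ i, T i, 0 ≤ ∏ i, wA m m0 (D.erase j) A i (P i) := fun P =>
      prod_nonneg fun i _ => wA_nn m m0 hm hm0 (D.erase j) A i (P i)
    rw [e2, e3 fun P => F P * evC f S (kA A) P]
    calc ∑ P : ∀ i, T i, (∏ i, wA m m0 (D.erase j) A i (P i)) *
            ∑ p, m (kA A j) j p * (F (update P j p) * evC f S (kA A) (update P j p))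
        ≤ ∑ P : ∀ i, T i, (∏ i, wA m m0 (D.erase j) A i (P i)) *
            ((1 + e) * ∑ p, m0 j p * (F (update P j p) * evC f S (kA A) (update P j p)) + t) := by
          refine sum_le_sum fun P _ => mul_le_mul_of_nonneg_left ?_ (hnn P)
          have := (abs_le.1 (H (kA A) P)).2
          linarith
      _ = (1 + e) * ∑ P : ∀ i, T i, (∏ i, wA m m0 (D.erase j) A i (P i)) *
            ∑ p, m0 j p * (F (update P j p) * evC f S (kA A) (update P j p)) +
          (∑ P : ∀ i, T i, ∏ i, wA m m0 (D.erase j) A i (P i)) * t := by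
          rw [sum_congr rfl fun P _ => mul_add (∏ i, wA m m0 (D.erase j) A i (P i)) _ _,
            sum_add_distrib, sum_mul, mul_sum]
          congr 1
          refine sum_congr rfl fun P _ => ?_
          ring
      _ ≤ _ := by
          have h1 := mul_le_mul_of_nonneg_right
            (mass_le m m0 hm hm1 hm0 h01 (D.erase j) A) ht
          linarith
  refine (sum_le_sum key).trans (le_of_eq ?_)
  rw [sum_add_distrib, ← mul_sum, sum_const, card_powerset, nsmul_eq_mul]
  push_cast
  ring

/-- the event -/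
theorem testM (m : Bool → ∀ j, T j → ℝ) (m0 : ∀ j, T j → ℝ) (f : (∀ j, T j) → I → Bool)
    (sc : I → ℕ) (ε τ : I → ℝ)
    (hm : ∀ b j p, 0 ≤ m b j p) (hm1 : ∀ b j, ∑ p, m b j p ≤ 1) (hm0 : ∀ j p, 0 ≤ m0 j p)
    (h01 : ∀ j, ∑ p, m0 j p = 1) (hε : ∀ j, 0 ≤ ε j) (hτ : ∀ j, 0 ≤ τ j)
    (F : (∀ j, T j) → ℝ) (s : ℕ)
    (H : ∀ (j : I) (κ : I → Bool) (P : ∀ j, T j), s ≤ sc j →
      |∑ p, m (κ j) j p * (F (update P j p) * evC f (tie sc j) κ (update P j p)) -
        ∑ p, m0 j p * (F (update P j p) * evC f (tie sc j) κ (update P j p))| ≤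
        ε j * ∑ p, m0 j p * (F (update P j p) * evC f (tie sc j) κ (update P j p)) + τ j)
    (n : ℕ) :
    ∀ D : Finset I, D.card = n →
      ∑ P, wC m m0 f D P * F P ≤
      (∏ j ∈ D.filter fun j => s ≤ sc j, (1 + ε j)) *
        (∑ P, wC m m0 f (D.filter fun i => sc i < s) P * F P +
          ∑ j ∈ D.filter fun j => s ≤ sc j, 2 ^ (tie sc j).card * τ j) := by
  have hη0 : ∀ j, 0 ≤ 2 ^ (tie sc j).card * τ j := fun j => mul_nonneg (by positivity) (hτ j)
  induction n with
  | zero =>
    intro D hD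
    rw [card_eq_zero] at hD
    subst hD
    simp
  | succ n ih =>
    intro D hD
    by_cases hall : ∀ i ∈ D, sc i < s
    · have h0 : (D.filter fun j => s ≤ sc j) = ∅ :=
        filter_false_of_mem fun i hi => not_le.2 (hall i hi)
      rw [filter_true_of_mem hall, h0]
      simp
    · push Not at hall
      obtain ⟨i0, hi0, hs0⟩ := hall
      obtain ⟨j, hj, hmax⟩ := exists_max_image D sc ⟨i0, hi0⟩
      have hsj : s ≤ sc j := hs0.trans (hmax i0 hi0)
      have hD' : (D.erase j).card = n := by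
        rw [card_erase_of_mem hj]
        omega
      have ih1 := ih (D.erase j) hD'
      have hsubT : D ⊆ tie sc j := fun i hi => mem_filter.2 ⟨mem_univ i, hmax i hi⟩
      have hst := stepM m m0 f hm hm1 hm0 h01 D (tie sc j) hsubT j hj F (ε j) (τ j) (hτ j)
        (fun κ P => H j κ P hsj)
      have e1 : (D.erase j).filter (fun i => sc i < s) = D.filter fun i => sc i < s := by
        rw [filter_erase, erase_eq_of_notMem]
        rw [mem_filter, not_and]
        intro _
        omega
      have e2 : (D.erase j).filter (fun i => s ≤ sc i) =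
          (D.filter fun i => s ≤ sc i).erase j := by
        rw [filter_erase]
      rw [e1, e2] at ih1
      have hjm : j ∈ D.filter fun i => s ≤ sc i := mem_filter.2 ⟨hj, hsj⟩
      rw [← add_sum_erase (D.filter fun i => s ≤ sc i) (fun j => 2 ^ (tie sc j).card * τ j) hjm,
        ← mul_prod_erase (D.filter fun i => s ≤ sc i) (fun j => 1 + ε j) hjm]
      have hεj : 0 ≤ 1 + ε j := by linarith [hε j]
      have hp1 : 1 ≤ ∏ i ∈ (D.filter fun i => s ≤ sc i).erase j, (1 + ε i) := by
        refine Finset.one_le_prod fun i _ => ?_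
        linarith [hε i]
      have h3 := mul_le_mul_of_nonneg_left ih1 hεj
      have h4 : 2 ^ (tie sc j).card * τ j ≤
          (1 + ε j) * (∏ i ∈ (D.filter fun i => s ≤ sc i).erase j, (1 + ε i)) *
            (2 ^ (tie sc j).card * τ j) := by
        refine le_mul_of_one_le_left (hη0 j) ?_
        have := hε j
        nlinarith
      calc ∑ P, wC m m0 f D P * F P ≤ _ := hst
        _ ≤ (1 + ε j) * ((∏ i ∈ (D.filter fun i => s ≤ sc i).erase j, (1 + ε i)) *
              (∑ P, wC m m0 f (D.filter fun i => sc i < s) P * F P +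
              ∑ i ∈ (D.filter fun i => s ≤ sc i).erase j, 2 ^ (tie sc i).card * τ i)) +
            (1 + ε j) * (∏ i ∈ (D.filter fun i => s ≤ sc i).erase j, (1 + ε i)) *
              (2 ^ (tie sc j).card * τ j) := add_le_add h3 h4
        _ = _ := by ring

end

theorem pf_CNM : Pool.Agent.H18.XZ.T_CNM := by
  classical
  intro I _ _ T _ ord m₀ m f ε τ hm0 h01 hm hm1 hε hτ hs n F hF HR
  have hev : ∀ (j : I) (κ : I → Bool) (P : ∀ j, T j),
      Pool.Agent.H70.OQ.ic (∀ i, ord i ≤ ord j → f P i = κ i) = evC f (tie ord j) κ P := by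
    intro j κ P
    unfold Pool.Agent.H70.OQ.ic evC tie
    by_cases h : ∀ i, ord i ≤ ord j → f P i = κ i
    · rw [if_pos h, if_pos]
      intro i hi
      exact h i (mem_filter.1 hi).2
    · rw [if_neg h, if_neg]
      intro h'
      exact h fun i hi => h' i (mem_filter.2 ⟨mem_univ i, hi⟩)
  have hev1 : ∀ (j : I) (κ : I → Bool) (P : ∀ j, T j) (p : T j),
      Pool.Agent.H70.OQ.ic (∀ i, ord i ≤ ord j → f (update P j p) i = κ i) =
        evC f (tie ord j) κ (update P j p) := fun j κ P p => hev j κ (update P j p)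
  have hη0 : ∀ j, 0 ≤ 2 ^ (tie ord j).card * τ j := fun j => mul_nonneg (by positivity) (hτ j)
  have hs' : ∑ j, (2 * ε j + 2 ^ (tie ord j).card * τ j) ≤ 1 / 4 := hs
  have hsε : ∑ j, ε j ≤ 1 / 8 := by
    rw [sum_add_distrib, ← mul_sum] at hs'
    have : 0 ≤ ∑ j, 2 ^ (tie ord j).card * τ j := sum_nonneg fun j _ => hη0 j
    linarith
  have hz : ∀ P : ∀ j, T j, ∏ j, m (f P j) j (P j) = wC m m₀ f univ P := by
    intro P
    unfold wC
    exact prod_congr rfl fun j _ => (if_pos (mem_univ j)).symm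
  have hy : ∀ (P : ∀ j, T j),
      (∏ j, if ord j ≤ n then m (f P j) j (P j) else m₀ j (P j)) =
        wC m m₀ f (univ.filter fun i => ord i < n + 1) P := by
    intro P
    unfold wC
    refine prod_congr rfl fun j _ => ?_
    by_cases h : ord j ≤ n
    · rw [if_pos h, if_pos (mem_filter.2 ⟨mem_univ j, by omega⟩)]
    · rw [if_neg h, if_neg]
      intro h'
      have := (mem_filter.1 h').2
      omega
  simp only [hz, hy]
  have h1 := testM m m₀ f ord ε τ hm hm1 hm0 h01 hε hτ F (n + 1) (fun j κ P hj => by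
      have h := HR j (by omega) κ P
      simp only [hev1] at h
      exact h) (univ : Finset I).card univ rfl
  have h2 : (univ.filter fun j => n + 1 ≤ ord j) = univ.filter fun j => n < ord j := by
    ext j
    simp only [mem_filter, mem_univ, true_and]
    omega
  rw [h2] at h1
  have hprod : ∏ j ∈ univ.filter (fun j => n < ord j), (1 + ε j) ≤ 2 := by
    have h3 : ∏ j ∈ univ.filter (fun j => n < ord j), (1 + ε j) ≤
        ∏ j ∈ univ.filter (fun j => n < ord j), Real.exp (ε j) := by
      refine prod_le_prod (fun j _ => by linarith [hε j]) fun j _ => ?_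
      have := Real.add_one_le_exp (ε j)
      linarith
    rw [← Real.exp_sum] at h3
    have h4 : ∑ j ∈ univ.filter (fun j => n < ord j), ε j ≤ 1 / 8 :=
      (sum_le_sum_of_subset_of_nonneg (subset_univ _) fun i _ _ => hε i).trans hsε
    have h5 : Real.exp (∑ j ∈ univ.filter (fun j => n < ord j), ε j) ≤ Real.exp (1 / 2) :=
      Real.exp_le_exp.2 (by linarith)
    have h6 : Real.exp (1 / 2 : ℝ) ≤ 2 := by
      have h7 : Real.exp (1 / 2 : ℝ) ^ 2 ≤ 2 ^ 2 := by
        rw [← Real.exp_nat_mul]
        have := Real.exp_one_lt_d9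
        norm_num
        linarith
      exact le_of_sq_le_sq h7 (by norm_num)
    linarith
  have hX : 0 ≤ ∑ P, wC m m₀ f (univ.filter fun i => ord i < n + 1) P * F P +
      ∑ j ∈ univ.filter (fun j => n < ord j), 2 ^ (tie ord j).card * τ j := by
    refine add_nonneg (sum_nonneg fun P _ => mul_nonneg ?_ (hF P)) (sum_nonneg fun j _ => hη0 j)
    unfold wC
    refine prod_nonneg fun i _ => ?_
    split_ifs
    · exact hm _ _ _
    · exact hm0 _ _
  have h8 := h1.trans (mul_le_mul_of_nonneg_right hprod hX)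
  rw [mul_add] at h8
  exact h8

end Pool.Agent.H58.XZ.CN
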